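import Pool.Agent.Helper40.PR.Defs2
import Pool.Agent.Helper59.PR.TK2
import Pool.Agent.Helper54.PR.TK5
import Pool.Agent.Helper55.PR.TK4B
import Pool.Agent.Helper65.PR.TK4A
import Pool.Agent.Helper78.PR.TK11
import Pool.Agent.Helper26.PR.TK6

set_option autoImplicit false

namespace PR

open ContinuousLinearMap

namespace CD12

set_option linter.unusedSectionVars false

variable {X : Type*} [NormedAddCommGroup X] [NormedSpace ℂ X] [CompleteSpace X]
variable {Y : Type*} [NormedAddCommGroup Y] [NormedSpace ℂ Y] [CompleteSpace Y]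
variable {σ : ℂ}

/-- the bracket with a rank one operator -/
lemma bra_rk (σ : ℂ) (T : X →L[ℂ] X) (y : X) (g : X →L[ℂ] ℂ) :
    bra σ T (rk y g) = rk (T y) g + rk (σ • y) (g.comp T) := by
  ext z
  show T (g z • y) + σ • (g (T z) • y) = g z • T y + g (T z) • (σ • y)
  rw [map_smul, smul_comm]

lemma sr_bra_rk' (σ : ℂ) (T : X →L[ℂ] X) (y : X) (g : X →L[ℂ] ℂ) :
    sr (bra σ T (rk y g)) =
      Rt ((1 + σ) * g (T y)) (σ * (g (T y) ^ 2 - g y * g (T (T y)))) := by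
  rw [bra_rk, sr_rk_add_rk]
  simp only [ContinuousLinearMap.comp_apply, map_smul, smul_eq_mul]
  congr 1 <;> ring

lemma sr_bra_flag' (hσ : σ = 1 ∨ σ = -1) (T : X →L[ℂ] X) {y : X} {g : X →L[ℂ] ℂ} (hg : g y = 0) :
    sr (bra σ T (rk y g)) = ‖g (T y)‖ := by
  rw [sr_bra_rk', hg]
  rcases hσ with rfl | rfl
  · rw [Rt_eq (l1 := g (T y)) (l2 := g (T y)) (by ring) (by ring)]
    simp
  · rw [Rt_eq (l1 := g (T y)) (l2 := - g (T y)) (by ring) (by ring)]
    simp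

lemma bra_smul_right (σ c : ℂ) (T S : X →L[ℂ] X) : bra σ T (c • S) = c • bra σ T S := by
  simp [bra, smul_add, smul_smul, mul_comm]

lemma bra_add_right (σ : ℂ) (T S S' : X →L[ℂ] X) : bra σ T (S + S') = bra σ T S + bra σ T S' := by
  simp only [bra, mul_add, add_mul, smul_add]
  abel

lemma bra_scalar_right (T : X →L[ℂ] X) (c : ℂ) : bra (-1) T (c • (1 : X →L[ℂ] X)) = 0 := by
  simp [bra]

/-- a bijective semilinear map which is weakly bounded is a homeomorphism -/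
lemma exists_equiv {τ τ' : ℂ →+* ℂ} [RingHomInvPair τ τ'] [RingHomInvPair τ' τ]
    [RingHomIsometric τ] [RingHomIsometric τ'] (L : X →ₛₗ[τ] Y) (hbij : Function.Bijective L)
    (hk : ∀ k : Y →L[ℂ] ℂ, ∃ f : X →L[ℂ] ℂ, ∀ x, ‖k (L x)‖ = ‖f x‖) :
    ∃ A : X ≃SL[τ] Y, ∀ x, A x = L x := by
  classical
  obtain ⟨C, hC⟩ : ∃ C : ℝ, ∀ x : {x : X // ‖x‖ ≤ 1},
      ‖NormedSpace.inclusionInDoubleDual ℂ Y (L x.1)‖ ≤ C := by
    apply banach_steinhaus
    intro k
    obtain ⟨f, hf⟩ := hk k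
    refine ⟨‖f‖, fun x => ?_⟩
    rw [NormedSpace.dual_def, hf]
    calc ‖f x.1‖ ≤ ‖f‖ * ‖x.1‖ := f.le_opNorm _
      _ ≤ ‖f‖ * 1 := by gcongr; exact x.2
      _ = ‖f‖ := mul_one _
  have hC' : ∀ x : X, ‖x‖ ≤ 1 → ‖L x‖ ≤ C := by
    intro x hx
    have h1 := hC ⟨x, hx⟩
    have h2 : ‖NormedSpace.inclusionInDoubleDual ℂ Y (L x)‖ = ‖L x‖ :=
      (NormedSpace.inclusionInDoubleDualLi (𝕜 := ℂ) (E := Y)).norm_map (L x)
    rwa [h2] at h1
  have hC0 : 0 ≤ C := le_trans (norm_nonneg _) (hC' 0 (by simp))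
  have hb : ∀ x : X, ‖L x‖ ≤ C * ‖x‖ := by
    intro x
    by_cases hx : x = 0
    · simp [hx]
    have hn : 0 < ‖x‖ := norm_pos_iff.2 hx
    have h1 := hC' (((‖x‖ : ℂ)⁻¹) • x) (by
      rw [norm_smul, norm_inv, Complex.norm_real, norm_norm, inv_mul_cancel₀ hn.ne'])
    rw [map_smulₛₗ, norm_smul, RingHomIsometric.norm_map, norm_inv, Complex.norm_real,
      norm_norm] at h1
    rw [inv_mul_le_iff₀ hn] at h1
    linarith [mul_comm C ‖x‖]
  let A0 : X →SL[τ] Y := L.mkContinuous C hb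
  have hker : A0.ker = ⊥ := by
    rw [LinearMap.ker_eq_bot]
    exact hbij.1
  have hrange : A0.range = ⊤ := by
    rw [LinearMap.range_eq_top]
    exact hbij.2
  refine ⟨ContinuousLinearEquiv.ofBijective A0 hker hrange, fun x => ?_⟩
  rw [ContinuousLinearEquiv.coeFn_ofBijective]
  rfl

/-- conjugation of an operator by a semilinear homeomorphism -/
noncomputable def cnj {τ τ' : ℂ →+* ℂ} [RingHomInvPair τ τ'] [RingHomInvPair τ' τ]
    (A : X ≃SL[τ] Y) (S : Y →L[ℂ] Y) : X →L[ℂ] X :=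
  ((A.symm : Y →SL[τ'] X).comp (S.comp (A : X →SL[τ] Y)) : X →SL[RingHom.id ℂ] X)

lemma cnj_apply {τ τ' : ℂ →+* ℂ} [RingHomInvPair τ τ'] [RingHomInvPair τ' τ]
    (A : X ≃SL[τ] Y) (S : Y →L[ℂ] Y) (x : X) : cnj A S x = A.symm (S (A x)) := rfl

/-- the core of `cd_typeI` -/
lemma typeI_core {τ τ' : ℂ →+* ℂ} [RingHomInvPair τ τ'] [RingHomInvPair τ' τ]
    [RingHomIsometric τ] (hσ : σ = 1 ∨ σ = -1)
    {φ : (X →L[ℂ] X) → (Y →L[ℂ] Y)}
    (h : ∀ T S, sr (bra σ (φ T) (φ S)) = sr (bra σ T S))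
    (A : X ≃SL[τ] Y)
    (hf : ∀ f : X →L[ℂ] ℂ, ∃ k : Y →L[ℂ] ℂ, (∀ x, ‖k (A x)‖ = ‖f x‖) ∧
        ∀ x, f x = 0 → ∃ θ γ : ℂ, ‖θ‖ = 1 ∧ (σ = 1 → γ = 0) ∧
          φ (rk x f) = θ • rk (A x) k + γ • (1 : Y →L[ℂ] Y)) (T : X →L[ℂ] X) :
    ∃ c m : ℂ, ‖c‖ = 1 ∧ ∀ y, φ T y = c • A (T (A.symm y)) + m • y := by
  obtain ⟨c, m, hc, hT⟩ := flag_test T (cnj A (φ T)) (by
    intro x f hfx
    obtain ⟨k, hk, hx⟩ := hf f
    obtain ⟨θ, γ, hθ, hγ, hφ⟩ := hx x hfx
    have h1 := h T (rk x f)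
    rw [sr_bra_flag' hσ T hfx, hφ] at h1
    have hkx : k (A x) = 0 := by
      rw [← norm_eq_zero, hk, hfx, norm_zero]
    have h2 : bra σ (φ T) (θ • rk (A x) k + γ • (1 : Y →L[ℂ] Y)) = θ • bra σ (φ T) (rk (A x) k) := by
      rcases hσ with rfl | rfl
      · rw [hγ rfl, zero_smul, add_zero, bra_smul_right]
      · rw [bra_add_right, bra_smul_right, bra_scalar_right, add_zero]
    rw [h2, sr_smul, hθ, one_mul, sr_bra_flag' hσ (φ T) hkx] at h1
    rw [← h1, ← hk, cnj_apply, ContinuousLinearEquiv.apply_symm_apply])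
  refine ⟨τ c, τ m, by rw [RingHomIsometric.norm_map, hc], fun y => ?_⟩
  have h3 : cnj A (φ T) (A.symm y) = (c • T + m • (1 : X →L[ℂ] X)) (A.symm y) := by rw [hT]
  rw [cnj_apply, ContinuousLinearEquiv.apply_symm_apply] at h3
  have h4 := congrArg A h3
  rw [ContinuousLinearEquiv.apply_symm_apply] at h4
  rw [h4]
  simp [map_add, map_smulₛₗ]

/-- the key inequality: an operator shifted by a scalar -/
lemma shift_zero {α β ν : ℂ}
    (h : ∀ a : ℂ, ‖a‖ ^ 2 + ‖α * a + β‖ = ‖a + ν‖ ^ 2 + ‖α * a + β + 2 * ν * a + ν ^ 2‖) :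
    ν = 0 := by
  by_contra hν
  have hn : 0 < ‖ν‖ ^ 2 := by positivity
  have key : ∀ t : ℝ, 4 * t * ‖ν‖ ^ 2 ≤ 4 * ‖β‖ + 2 * ‖ν‖ ^ 2 := by
    intro t
    have h1 := h ((t : ℂ) * ν)
    have h2 := h (-((t : ℂ) * ν))
    have e1 : ‖(t : ℂ) * ν + ν‖ ^ 2 = (t + 1) ^ 2 * ‖ν‖ ^ 2 := by
      rw [show (t : ℂ) * ν + ν = ((t + 1 : ℝ) : ℂ) * ν by push_cast; ring, norm_mul, mul_pow,
        Complex.norm_real, Real.norm_eq_abs, sq_abs]
    have e2 : ‖-((t : ℂ) * ν) + ν‖ ^ 2 = (t - 1) ^ 2 * ‖ν‖ ^ 2 := by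
      rw [show -((t : ℂ) * ν) + ν = -(((t - 1 : ℝ) : ℂ) * ν) by push_cast; ring, norm_neg, norm_mul,
        mul_pow, Complex.norm_real, Real.norm_eq_abs, sq_abs]
    have e3 : ‖(t : ℂ) * ν‖ ^ 2 = t ^ 2 * ‖ν‖ ^ 2 := by
      rw [norm_mul, mul_pow, Complex.norm_real, Real.norm_eq_abs, sq_abs]
    rw [e1, e3] at h1
    rw [norm_neg, e2, e3] at h2
    -- compare the two pairs
    have c1 : ‖α * (t * ν) + β‖ ≤ ‖α * (-(t * ν)) + β‖ + 2 * ‖β‖ := by
      have : α * (t * ν) + β = -(α * (-(t * ν)) + β) + 2 * β := by ring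
      rw [this]
      refine (norm_add_le _ _).trans ?_
      rw [norm_neg, norm_mul]
      simp
    have c2 : ‖α * (-(t * ν)) + β + 2 * ν * (-(t * ν)) + ν ^ 2‖ ≤
        ‖α * (t * ν) + β + 2 * ν * (t * ν) + ν ^ 2‖ + 2 * ‖β‖ + 2 * ‖ν‖ ^ 2 := by
      have : α * (-(t * ν)) + β + 2 * ν * (-(t * ν)) + ν ^ 2 =
        -(α * (t * ν) + β + 2 * ν * (t * ν) + ν ^ 2) + 2 * β + 2 * ν ^ 2 := by ring
      rw [this]
      refine (norm_add₃_le).trans ?_
      rw [norm_neg, norm_mul, norm_mul, norm_pow]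
      simp
    nlinarith [h1, h2, c1, c2]
  have := key ((4 * ‖β‖ + 2 * ‖ν‖ ^ 2) / (4 * ‖ν‖ ^ 2) + 1)
  have h4 : 4 * ((4 * ‖β‖ + 2 * ‖ν‖ ^ 2) / (4 * ‖ν‖ ^ 2) + 1) * ‖ν‖ ^ 2 =
      4 * ‖β‖ + 2 * ‖ν‖ ^ 2 + 4 * ‖ν‖ ^ 2 := by
    field_simp
  rw [h4] at this
  linarith

lemma indep_pair_of {x y : X} {f g : X →L[ℂ] ℂ} (h1 : f x = 1) (h2 : f y = 0) (h3 : g y = 1)
    (h4 : g x = 0) : LinearIndependent ℂ ![x, y] := by
  rw [LinearIndependent.pair_iff]
  intro s t hst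
  have e1 := congrArg f hst
  have e2 := congrArg g hst
  simp only [map_add, map_smul, smul_eq_mul, map_zero, h1, h2, h3, h4] at e1 e2
  constructor
  · simpa using e1
  · simpa using e2

/-- in dimension three there is a nonzero vector killed by two functionals -/
lemma exists_ker_two (hX : Dim3 X) (f g : X →L[ℂ] ℂ) : ∃ z : X, z ≠ 0 ∧ f z = 0 ∧ g z = 0 := by
  obtain ⟨v, hv⟩ := hX
  obtain ⟨c, hc0, hc⟩ : ∃ c : Fin 3 → ℂ, c ≠ 0 ∧
      (f (v 0) * c 0 + f (v 1) * c 1 + f (v 2) * c 2 = 0 ∧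
       g (v 0) * c 0 + g (v 1) * c 1 + g (v 2) * c 2 = 0) := by
    let M : (Fin 3 → ℂ) →ₗ[ℂ] (Fin 2 → ℂ) := Matrix.mulVecLin !![f (v 0), f (v 1), f (v 2); g (v 0), g (v 1), g (v 2)]
    have hM : ¬ Function.Injective M := by
      intro hi
      have := LinearMap.finrank_le_finrank_of_injective hi
      simp at this
    rw [← LinearMap.ker_eq_bot, Submodule.eq_bot_iff] at hM
    push Not at hM
    obtain ⟨c, hc, hc0⟩ := hM
    refine ⟨c, hc0, ?_⟩
    rw [LinearMap.mem_ker] at hc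
    have e0 := congrFun hc 0
    have e1 := congrFun hc 1
    simp [M, Matrix.mulVec, dotProduct, Fin.sum_univ_three] at e0 e1
    exact ⟨e0, e1⟩
  refine ⟨∑ i, c i • v i, ?_, ?_, ?_⟩
  · intro h0
    exact hc0 (funext (Fintype.linearIndependent_iff.1 hv c h0))
  · simp only [map_add, map_smul, smul_eq_mul, Fin.sum_univ_three]
    linear_combination hc.1
  · simp only [map_add, map_smul, smul_eq_mul, Fin.sum_univ_three]
    linear_combination hc.2

lemma rk_mul_rk (x y : X) (f g : X →L[ℂ] ℂ) : rk x f * rk y g = f y • rk x g := by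
  ext z
  show f (g z • y) • x = f y • (g z • x)
  rw [map_smul, smul_eq_mul, smul_smul, mul_comm]

lemma exists_ne_smul_of_not_scalar {T : X →L[ℂ] X} (hT : ¬ ∃ z : ℂ, T = z • (1 : X →L[ℂ] X)) :
    ∃ x, LinearIndependent ℂ ![x, T x] := by
  by_contra hcon
  push Not at hcon
  apply hT
  apply scalar_of_eigen_all T
  intro x
  by_cases hx : x = 0
  · exact ⟨0, by simp [hx]⟩
  have h1 := hcon x
  rw [LinearIndependent.pair_iff' hx] at h1
  push Not at h1
  obtain ⟨a, ha⟩ := h1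
  exact ⟨a, ha.symm⟩

/-- prescribed values with affine dependence -/
lemma exists_affine {x y z : X} (hxy : LinearIndependent ℂ ![x, y]) :
    ∃ α β : ℂ, ∀ a : ℂ, ∃ f : X →L[ℂ] ℂ, f x = 1 ∧ f y = a ∧ f z = α * a + β := by
  by_cases hz : z ∈ Submodule.span ℂ (Set.range ![x, y])
  · have : ∃ b a : ℂ, z = b • x + a • y := by
      rw [Matrix.range_cons, Matrix.range_cons, Matrix.range_empty, Set.union_empty] at hz
      rw [show ({x} ∪ {y} : Set X) = {x, y} from rfl, Submodule.mem_span_pair] at hz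
      obtain ⟨b, a, h⟩ := hz
      exact ⟨b, a, h.symm⟩
    obtain ⟨b, a, rfl⟩ := this
    refine ⟨a, b, fun t => ?_⟩
    obtain ⟨f, hf⟩ := exists_dual_fin hxy ![1, t]
    have h0 := hf 0
    have h1 := hf 1
    simp at h0 h1
    exact ⟨f, h0, h1, by simp [h0, h1]; ring⟩
  · refine ⟨0, 0, fun t => ?_⟩
    have h3 : LinearIndependent ℂ ![z, x, y] := linearIndependent_finCons.2 ⟨hxy, hz⟩
    obtain ⟨f, hf⟩ := exists_dual_fin h3 ![0, 1, t]
    have h0 := hf 0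
    have h1 := hf 1
    have h2 := hf 2
    simp at h0 h1 h2
    exact ⟨f, h1, h2, by simp [h0]⟩

end CD12

open CD12

section cd

variable {X : Type*} [NormedAddCommGroup X] [NormedSpace ℂ X] [CompleteSpace X]
variable {Y : Type*} [NormedAddCommGroup Y] [NormedSpace ℂ Y] [CompleteSpace Y]
variable {σ : ℂ}

theorem cd_typeI (hσ : σ = 1 ∨ σ = -1)
    {φ : (X →L[ℂ] X) → (Y →L[ℂ] Y)}
    (h : ∀ T S, sr (bra σ (φ T) (φ S)) = sr (bra σ T S))
    {A : X → Y} (hA : LinOrConj A) (hbij : Function.Bijective A)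
    (hf : ∀ f : X →L[ℂ] ℂ, ∃ k : Y →L[ℂ] ℂ, (∀ x, ‖k (A x)‖ = ‖f x‖) ∧
        ∀ x, f x = 0 → ∃ θ γ : ℂ, ‖θ‖ = 1 ∧ (σ = 1 → γ = 0) ∧
          φ (rk x f) = θ • rk (A x) k + γ • (1 : Y →L[ℂ] Y))
    (hk : ∀ k : Y →L[ℂ] ℂ, ∃ f : X →L[ℂ] ℂ, ∀ x, ‖k (A x)‖ = ‖f x‖) :
    ∃ c h : (X →L[ℂ] X) → ℂ, (∀ T, ‖c T‖ = 1) ∧ FormI c h φ := by
  rcases hA with ⟨L, hL⟩ | ⟨L, hL⟩
  · obtain rfl : A = L := funext hL
    obtain ⟨A', hA'⟩ := exists_equiv L hbij hk
    have hf' : ∀ f : X →L[ℂ] ℂ, ∃ k : Y →L[ℂ] ℂ, (∀ x, ‖k (A' x)‖ = ‖f x‖) ∧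
        ∀ x, f x = 0 → ∃ θ γ : ℂ, ‖θ‖ = 1 ∧ (σ = 1 → γ = 0) ∧
          φ (rk x f) = θ • rk (A' x) k + γ • (1 : Y →L[ℂ] Y) := by
      simpa only [hA'] using hf
    choose c m hc hm using typeI_core hσ h A' hf'
    exact ⟨c, m, hc, Or.inl ⟨A', hm⟩⟩
  · obtain rfl : A = L := funext hL
    obtain ⟨A', hA'⟩ := exists_equiv L hbij hk
    have hf' : ∀ f : X →L[ℂ] ℂ, ∃ k : Y →L[ℂ] ℂ, (∀ x, ‖k (A' x)‖ = ‖f x‖) ∧
        ∀ x, f x = 0 → ∃ θ γ : ℂ, ‖θ‖ = 1 ∧ (σ = 1 → γ = 0) ∧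
          φ (rk x f) = θ • rk (A' x) k + γ • (1 : Y →L[ℂ] Y) := by
      simpa only [hA'] using hf
    choose c m hc hm using typeI_core hσ h A' hf'
    exact ⟨c, m, hc, Or.inr ⟨A', hm⟩⟩

theorem kill_scalar (hX : Dim3 X) {ψ : (X →L[ℂ] X) → (X →L[ℂ] X)} {c μ : (X →L[ℂ] X) → ℂ}
    (hc : ∀ T, ‖c T‖ = 1) (hψ : ∀ T, ψ T = c T • T + μ T • (1 : X →L[ℂ] X))
    (h : ∀ T S, sr (bra 1 (ψ T) (ψ S)) = sr (bra 1 T S)) :
    ∃ c' : (X →L[ℂ] X) → ℂ, (∀ T, ‖c' T‖ = 1) ∧ ∀ T, ψ T = c' T • T := by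
  have hnt : Nontrivial X := by
    obtain ⟨v, hv⟩ := hX
    exact ⟨v 0, 0, hv.ne_zero 0⟩
  have hself : ∀ T : X →L[ℂ] X, bra 1 T T = (2 : ℂ) • (T ^ 2) := by
    intro T
    simp only [bra, one_smul, pow_two, two_smul]
  have hsr : ∀ T, sr (ψ T) = sr T := by
    intro T
    have h1 := h T T
    rw [hself, hself, sr_smul, sr_smul, sr_pow _ two_ne_zero, sr_pow _ two_ne_zero] at h1
    have h2 : sr (ψ T) ^ 2 = sr T ^ 2 := by
      have : ‖(2 : ℂ)‖ ≠ 0 := by simp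
      exact mul_left_cancel₀ this h1
    exact (pow_left_inj₀ (sr_nonneg _) (sr_nonneg _) two_ne_zero).1 h2
  -- (1) idempotents of rank one
  have hP : ∀ (x : X) (f : X →L[ℂ] ℂ), f x = 1 → μ (rk x f) = 0 := by
    intro x f hfx
    -- y in the kernel of f, y ≠ 0
    obtain ⟨y, hy0, hfy, -⟩ := exists_ker_two hX f f
    have hx0 : x ≠ 0 := by
      rintro rfl
      simp at hfx
    have hxy : LinearIndependent ℂ ![x, y] := by
      rw [LinearIndependent.pair_iff]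
      intro s t hst
      have e1 := congrArg f hst
      simp only [map_add, map_smul, smul_eq_mul, map_zero, hfx, hfy] at e1
      have hs : s = 0 := by simpa using e1
      subst hs
      simp only [zero_smul, zero_add] at hst
      exact ⟨rfl, (smul_eq_zero.1 hst).resolve_right hy0⟩
    obtain ⟨g, hg⟩ := exists_dual_fin hxy ![0, 1]
    have hgx : g x = 0 := by simpa using hg 0
    have hgy : g y = 1 := by simpa using hg 1
    obtain ⟨z, hz0, hfz, hgz⟩ := exists_ker_two hX f g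
    set P := rk x f with hPdef
    set Q := rk y g with hQdef
    have hPQ : P * Q = 0 := by rw [hPdef, hQdef, rk_mul_rk, hfy, zero_smul]
    have hQP : Q * P = 0 := by rw [hPdef, hQdef, rk_mul_rk, hgx, zero_smul]
    have h0 : sr (bra 1 (ψ P) (ψ Q)) = 0 := by
      rw [h]
      simp [bra, hPQ, hQP, sr_zero]
    have hval : bra 1 (ψ P) (ψ Q) = (2 * (c P * μ Q)) • P + (2 * (c Q * μ P)) • Q +
        (2 * (μ P * μ Q)) • (1 : X →L[ℂ] X) := by
      have e1 : ψ P * ψ Q = (c P * μ Q) • P + (c Q * μ P) • Q + (μ P * μ Q) • (1 : X →L[ℂ] X) := by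
        rw [hψ P, hψ Q]
        simp only [add_mul, mul_add, smul_mul_assoc, mul_smul_comm, hPQ, mul_one, one_mul,
          smul_zero, zero_add, smul_smul]
        module
      have e2 : ψ Q * ψ P = (c P * μ Q) • P + (c Q * μ P) • Q + (μ P * μ Q) • (1 : X →L[ℂ] X) := by
        rw [hψ P, hψ Q]
        simp only [add_mul, mul_add, smul_mul_assoc, mul_smul_comm, hQP, mul_one, one_mul,
          smul_zero, zero_add, smul_smul]
        module
      rw [bra, one_smul, e1, e2]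
      module
    have hz := norm_le_sr (T := bra 1 (ψ P) (ψ Q)) (v := z) (l := 2 * (μ P * μ Q)) hz0 (by
      rw [hval]
      show (2 * (c P * μ Q)) • (f z • x) + (2 * (c Q * μ P)) • (g z • y) + (2 * (μ P * μ Q)) • z = _
      rw [hfz, hgz]; simp)
    have hy := norm_le_sr (T := bra 1 (ψ P) (ψ Q)) (v := y)
      (l := 2 * (c Q * μ P) + 2 * (μ P * μ Q)) hy0 (by
      rw [hval]
      show (2 * (c P * μ Q)) • (f y • x) + (2 * (c Q * μ P)) • (g y • y) + (2 * (μ P * μ Q)) • y = _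
      rw [hfy, hgy]; module)
    rw [h0, norm_le_zero_iff] at hz hy
    rw [hz, add_zero] at hy
    have hcQ : c Q ≠ 0 := by
      intro h5
      have := hc Q
      rw [h5] at this
      simp at this
    have := mul_eq_zero.1 hy
    rcases this with h6 | h6
    · norm_num at h6
    · exact (mul_eq_zero.1 h6).resolve_left hcQ
  -- (2) general operators
  have hgen : ∀ T : X →L[ℂ] X, ∃ c' : ℂ, ‖c'‖ = 1 ∧ ψ T = c' • T := by
    intro T
    by_cases hT : ∃ z : ℂ, T = z • (1 : X →L[ℂ] X)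
    · obtain ⟨z, rfl⟩ := hT
      have h1 := hsr (z • (1 : X →L[ℂ] X))
      set T := z • (1 : X →L[ℂ] X) with hTdef
      have h2 : ψ T = (c T * z + μ T) • (1 : X →L[ℂ] X) := by
        rw [hψ T, hTdef]; module
      rw [h2, hTdef, sr_scalar, sr_scalar] at h1
      by_cases hz : z = 0
      · refine ⟨1, by simp, ?_⟩
        rw [h2]
        rw [hz, norm_zero, norm_eq_zero] at h1
        rw [hTdef, hz]
        rw [hz, hTdef, hz] at *
        simp only [zero_smul] at *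
        rw [h1]; simp
      · refine ⟨(c T * z + μ T) / z, ?_, ?_⟩
        · rw [norm_div, div_eq_one_iff_eq (by simpa using hz)]
          exact h1
        · rw [h2, hTdef, smul_smul, div_mul_cancel₀ _ hz]
    · obtain ⟨x, hx⟩ := exists_ne_smul_of_not_scalar hT
      obtain ⟨α, β, hαβ⟩ := exists_affine (z := T (T x)) hx
      have hcT : c T ≠ 0 := by
        intro h5
        have := hc T
        rw [h5] at this
        simp at this
      have hν : μ T / c T = 0 := by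
        apply shift_zero (α := α) (β := β)
        intro a
        obtain ⟨f, hfx, hfT, hfTT⟩ := hαβ a
        have h1 := h T (rk x f)
        have h2 : ψ (rk x f) = c (rk x f) • rk x f := by
          rw [hψ, hP x f hfx]; simp
        rw [h2, bra_smul_right, sr_smul, hc, one_mul, sr_bra_rk', sr_bra_rk'] at h1
        have h3 : f (ψ T x) = c T * a + μ T := by
          rw [hψ]
          show f (c T • T x + μ T • x) = _
          rw [map_add, map_smul, map_smul, hfT, hfx]; simp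
        have h4 : f (ψ T (ψ T x)) = c T ^ 2 * (α * a + β) + 2 * (c T * μ T) * a + μ T ^ 2 := by
          rw [hψ]
          show f (c T • T (c T • T x + μ T • x) + μ T • (c T • T x + μ T • x)) = _
          simp only [map_add, map_smul, hfT, hfx, hfTT, smul_eq_mul]
          ring
        rw [h3, h4, hfx, hfT, hfTT] at h1
        have h5 := Rt_sum_sq h1 (by
          rw [show (1 : ℂ) * ((c T * a + μ T) ^ 2 - 1 * (c T ^ 2 * (α * a + β) +
            2 * (c T * μ T) * a + μ T ^ 2)) = c T ^ 2 * (1 * (a ^ 2 - 1 * (α * a + β))) by ring,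
            norm_mul, norm_pow, hc]
          simp)
        have e1 : ‖(1 + 1) * (c T * a + μ T)‖ ^ 2 = 4 * ‖a + μ T / c T‖ ^ 2 := by
          rw [show (1 + 1) * (c T * a + μ T) = 2 * c T * (a + μ T / c T) by field_simp; ring,
            norm_mul, norm_mul, hc, mul_one, mul_pow]
          norm_num
        have e2 : ‖((1 + 1) * (c T * a + μ T)) ^ 2 -
            4 * (1 * ((c T * a + μ T) ^ 2 - 1 * (c T ^ 2 * (α * a + β) +
            2 * (c T * μ T) * a + μ T ^ 2)))‖ =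
            4 * ‖α * a + β + 2 * (μ T / c T) * a + (μ T / c T) ^ 2‖ := by
          rw [show ((1 + 1) * (c T * a + μ T)) ^ 2 -
            4 * (1 * ((c T * a + μ T) ^ 2 - 1 * (c T ^ 2 * (α * a + β) +
            2 * (c T * μ T) * a + μ T ^ 2))) =
            4 * c T ^ 2 * (α * a + β + 2 * (μ T / c T) * a + (μ T / c T) ^ 2) by field_simp; ring,
            norm_mul, norm_mul, norm_pow, hc]
          norm_num
        have e3 : ‖(1 + 1) * a‖ ^ 2 = 4 * ‖a‖ ^ 2 := by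
          rw [norm_mul, mul_pow]; norm_num
        have e4 : ‖((1 + 1) * a) ^ 2 - 4 * (1 * (a ^ 2 - 1 * (α * a + β)))‖ = 4 * ‖α * a + β‖ := by
          rw [show ((1 + 1) * a) ^ 2 - 4 * (1 * (a ^ 2 - 1 * (α * a + β))) = 4 * (α * a + β) by ring,
            norm_mul]
          norm_num
        rw [e1, e2, e3, e4] at h5
        linarith
      have hμ : μ T = 0 := by
        rcases div_eq_zero_iff.1 hν with h6 | h6
        · exact h6
        · exact absurd h6 hcT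
      exact ⟨c T, hc T, by rw [hψ T, hμ]; simp⟩
  choose c' h1 h2 using hgen
  exact ⟨c', h1, h2⟩

theorem formI_kill {φ : (X →L[ℂ] X) → (Y →L[ℂ] Y)} (hX : Dim3 X)
    (h : ∀ T S, sr (bra 1 (φ T) (φ S)) = sr (bra 1 T S))
    (hφ : ∃ c h : (X →L[ℂ] X) → ℂ, (∀ T, ‖c T‖ = 1) ∧ FormI c h φ) :
    ∃ c : (X →L[ℂ] X) → ℂ, (∀ T, ‖c T‖ = 1) ∧ FormI c (fun _ => 0) φ := by
  obtain ⟨c, m, hc, hF⟩ := hφ
  rcases hF with ⟨A, hA⟩ | ⟨A, hA⟩
  · obtain ⟨c', hc', hc''⟩ := kill_scalar hX (ψ := fun T => c T • T + m T • (1 : X →L[ℂ] X)) hc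
      (fun T => rfl) (by
        intro T S
        rw [← h T S]
        symm
        apply sr_conj A
        intro x
        show φ T (φ S (A x)) + (1 : ℂ) • φ S (φ T (A x)) = _
        simp only [hA]
        simp [bra])
    refine ⟨c', hc', Or.inl ⟨A, fun T y => ?_⟩⟩
    rw [hA]
    have h1 := congrArg (fun S : X →L[ℂ] X => A (S (A.symm y))) (hc'' T)
    simpa using h1
  · obtain ⟨c', hc', hc''⟩ := kill_scalar hX
      (ψ := fun T => (starRingEnd ℂ (c T)) • T + (starRingEnd ℂ (m T)) • (1 : X →L[ℂ] X))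
      (fun T => by rw [RCLike.norm_conj]; exact hc T)
      (fun T => rfl) (by
        intro T S
        rw [← h T S]
        symm
        apply sr_conj_star A
        intro x
        show φ T (φ S (A x)) + (1 : ℂ) • φ S (φ T (A x)) = _
        simp only [hA]
        simp [bra])
    refine ⟨fun T => starRingEnd ℂ (c' T), fun T => by rw [RCLike.norm_conj]; exact hc' T,
      Or.inr ⟨A, fun T y => ?_⟩⟩
    rw [hA]
    have h1 := congrArg (fun S : X →L[ℂ] X => A (S (A.symm y))) (hc'' T)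
    simpa using h1

end cd

end PR
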