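import Pool.Agent.Helper40.PR.Defs3
import Pool.Agent.Helper65.PR.TK4A
import Pool.Agent.Helper2.PR.E11A

set_option autoImplicit false
set_option linter.unusedSectionVars false
set_option linter.unusedSimpArgs false

namespace PR

open ContinuousLinearMap InnerProductSpace Complex

open scoped ComplexConjugate

namespace E11B

variable {H : Type*} [NormedAddCommGroup H] [InnerProductSpace ℂ H] [CompleteSpace H]

lemma norm_adj_sub (T : H →L[ℂ] H) (hT : T * adjoint T = adjoint T * T) (l : ℂ) (x : H) :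
    ‖adjoint T x - conj l • x‖ = ‖T x - l • x‖ := by
  have key : ‖adjoint T x - conj l • x‖ ^ 2 = ‖T x - l • x‖ ^ 2 := by
    have e1 : ((‖adjoint T x - conj l • x‖ ^ 2 : ℝ) : ℂ) = ((‖T x - l • x‖ ^ 2 : ℝ) : ℂ) := by
      have h1 := inner_self_eq_norm_sq_to_K (𝕜 := ℂ) (adjoint T x - conj l • x)
      have h2 := inner_self_eq_norm_sq_to_K (𝕜 := ℂ) (T x - l • x)
      have h3 : inner ℂ (adjoint T x) (adjoint T x) = inner ℂ (T x) (T x) := by
        rw [ContinuousLinearMap.adjoint_inner_left, ← ContinuousLinearMap.adjoint_inner_right T]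
        have := congrArg (fun S : H →L[ℂ] H => S x) hT
        exact congrArg (inner ℂ x) this
      have h4 : inner ℂ (adjoint T x - conj l • x) (adjoint T x - conj l • x) =
          inner ℂ (T x - l • x) (T x - l • x) := by
        have h5 : inner ℂ (adjoint T x) x = inner ℂ x (T x) :=
          ContinuousLinearMap.adjoint_inner_left T x x
        have h6 : inner ℂ x (adjoint T x) = inner ℂ (T x) x :=
          ContinuousLinearMap.adjoint_inner_right T x x
        simp only [inner_sub_left, inner_sub_right, inner_smul_left, inner_smul_right,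
          Complex.conj_conj]
        rw [h3, h5, h6]
        ring
      rw [h1, h2] at h4
      push_cast
      exact_mod_cast h4
    exact_mod_cast e1
  exact (pow_left_inj₀ (norm_nonneg _) (norm_nonneg _) two_ne_zero).1 key

end E11B

open E11B

section e

variable {H : Type*} [NormedAddCommGroup H] [InnerProductSpace ℂ H] [CompleteSpace H]

theorem approx_eigen {T : H →L[ℂ] H} (hT : T * adjoint T = adjoint T * T) {l : ℂ}
    (hl : l ∈ spectrum ℂ T) {ε : ℝ} (hε : 0 < ε) :
    ∃ x : H, ‖x‖ = 1 ∧ ‖T x - l • x‖ < ε ∧ ‖adjoint T x - conj l • x‖ < ε := by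
  by_contra hcon
  push Not at hcon
  have hlow : ∀ x : H, ‖x‖ = 1 → ε ≤ ‖T x - l • x‖ := by
    intro x hx
    by_contra hlt
    push Not at hlt
    have := hcon x hx hlt
    rw [norm_adj_sub T hT] at this
    linarith
  apply hl
  set R : H →L[ℂ] H := algebraMap ℂ (H →L[ℂ] H) l - T with hR
  have hRx : ∀ x, R x = l • x - T x := fun x => by
    rw [hR]; simp [Algebra.algebraMap_eq_smul_one]
  have hlow2 : ∀ x : H, ε * ‖x‖ ≤ ‖R x‖ := by
    intro x
    by_cases hx : x = 0
    · simp [hx]
    have hn : 0 < ‖x‖ := norm_pos_iff.2 hx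
    have h1 := hlow (((‖x‖ : ℂ)⁻¹) • x) (by
      rw [norm_smul, norm_inv, Complex.norm_real, norm_norm, inv_mul_cancel₀ hn.ne'])
    rw [map_smul, smul_comm, ← smul_sub, norm_smul, norm_inv, Complex.norm_real, norm_norm] at h1
    rw [hRx, norm_sub_rev]
    rw [inv_mul_eq_div, le_div_iff₀ hn] at h1
    exact h1
  have hanti : AntilipschitzWith (Real.toNNReal ε⁻¹) R := by
    apply AddMonoidHomClass.antilipschitz_of_bound R
    intro x
    rw [Real.coe_toNNReal _ (by positivity)]
    rw [inv_mul_eq_div, le_div_iff₀ hε]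
    linarith [hlow2 x]
  have hclosed : IsClosed (Set.range R) := hanti.isClosed_range R.uniformContinuous
  have hinj : Function.Injective R := hanti.injective
  have hadj : ∀ x, adjoint R x = 0 → x = 0 := by
    intro x hx
    have e1 : adjoint R x = conj l • x - adjoint T x := by
      have h1 : adjoint (1 : H →L[ℂ] H) = 1 := by
        rw [← ContinuousLinearMap.star_eq_adjoint, star_one]
      rw [hR, Algebra.algebraMap_eq_smul_one, map_sub, map_smulₛₗ, h1]
      rfl
    have e2 := norm_adj_sub T hT l x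
    rw [e1] at hx
    rw [norm_sub_rev, hx, norm_zero] at e2
    have e3 := hlow2 x
    rw [hRx, norm_sub_rev, ← e2] at e3
    have : ‖x‖ ≤ 0 := by
      by_contra hpos
      push Not at hpos
      nlinarith
    exact norm_le_zero_iff.1 this
  have hsurj : Function.Surjective R := by
    have h1 : (R.range)ᗮ = ⊥ := by
      rw [ContinuousLinearMap.orthogonal_range]
      rw [Submodule.eq_bot_iff]
      intro x hx
      exact hadj x hx
    have h2 : R.range.topologicalClosure = ⊤ := by
      rw [Submodule.topologicalClosure_eq_top_iff]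
      exact h1
    have h3 : IsClosed (R.range : Set H) := by
      have h4 : (R.range : Set H) = Set.range R := LinearMap.coe_range _
      rw [h4]; exact hclosed
    rw [IsClosed.submodule_topologicalClosure_eq h3] at h2
    exact LinearMap.range_eq_top.1 h2
  show IsUnit R
  rw [ContinuousLinearMap.isUnit_iff_bijective]
  exact ⟨hinj, hsurj⟩

/-- a `3 × 3` matrix as an operator -/
noncomputable def m3 (m : Fin 3 → Fin 3 → ℂ) :
    EuclideanSpace ℂ (Fin 3) →L[ℂ] EuclideanSpace ℂ (Fin 3) :=
  ∑ j, ∑ k, m j k • po (EuclideanSpace.single j 1) (EuclideanSpace.single k 1)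

end e

namespace E11B

variable {H : Type*} [NormedAddCommGroup H] [InnerProductSpace ℂ H] [CompleteSpace H]

/-- the matrix operator on the six dimensional space -/
noncomputable def big (M : Matrix (Fin 3 ⊕ Fin 3) (Fin 3 ⊕ Fin 3) ℂ) :
    ((Fin 3 ⊕ Fin 3) → ℂ) →L[ℂ] ((Fin 3 ⊕ Fin 3) → ℂ) :=
  LinearMap.toContinuousLinearMap (Matrix.toLin' M)

lemma big_continuous : Continuous big := by
  have : big = fun M => ((LinearMap.toContinuousLinearMap.toLinearMap ∘ₗ
      (Matrix.toLin' (R := ℂ) (m := Fin 3 ⊕ Fin 3) (n := Fin 3 ⊕ Fin 3)).toLinearMap) M) := rfl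
  rw [this]
  exact LinearMap.continuous_of_finiteDimensional _

/-- the four Gram matrices assembled -/
noncomputable def asm (s G1 G2 G3 G4 : Matrix (Fin 3) (Fin 3) ℂ) :
    Matrix (Fin 3 ⊕ Fin 3) (Fin 3 ⊕ Fin 3) ℂ :=
  Matrix.fromBlocks (G2 * s) (-(G1 * s)) (G4 * s) (-(G3 * s))

lemma asm_continuous (s : Matrix (Fin 3) (Fin 3) ℂ) :
    Continuous (fun p : (Matrix (Fin 3) (Fin 3) ℂ × Matrix (Fin 3) (Fin 3) ℂ) ×
      (Matrix (Fin 3) (Fin 3) ℂ × Matrix (Fin 3) (Fin 3) ℂ) => asm s p.1.1 p.1.2 p.2.1 p.2.2) := by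
  unfold asm
  apply Continuous.matrix_fromBlocks
  · exact (continuous_fst.snd).matrix_mul continuous_const
  · exact ((continuous_fst.fst).matrix_mul continuous_const).neg
  · exact (continuous_snd.snd).matrix_mul continuous_const
  · exact ((continuous_snd.fst).matrix_mul continuous_const).neg

lemma skb_po (T : H →L[ℂ] H) (x y : H) : skb T (po x y) = po (T x) y - po x (T y) := by
  ext z
  show T (inner ℂ y z • x) - inner ℂ y (adjoint T z) • x = inner ℂ y z • T x - inner ℂ (T y) z • x
  rw [map_smul, ContinuousLinearMap.adjoint_inner_right]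

lemma skb_sum (T : H →L[ℂ] H) (e : Fin 3 → H) (s : Fin 3 → Fin 3 → ℂ) :
    skb T (∑ j, ∑ k, s j k • po (e j) (e k)) =
      ∑ j, ∑ k, s j k • (po (T (e j)) (e k) - po (e j) (T (e k))) := by
  simp only [← skb_po]
  simp only [skb, Finset.mul_sum, Finset.sum_mul, mul_smul_comm, smul_mul_assoc, smul_sub,
    Finset.sum_sub_distrib]

/-- reduction to the six dimensional space -/
lemma sr_skb_gram (T : H →L[ℂ] H) (e : Fin 3 → H) (s : Fin 3 → Fin 3 → ℂ) :
    sr (skb T (∑ j, ∑ k, s j k • po (e j) (e k))) =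
      sr (big (asm (Matrix.of s) (Matrix.of fun j k => inner ℂ (e j) (e k))
        (Matrix.of fun j k => inner ℂ (e j) (T (e k))) (Matrix.of fun j k => inner ℂ (T (e j)) (e k))
        (Matrix.of fun j k => inner ℂ (T (e j)) (T (e k))))) := by
  let U : ((Fin 3 ⊕ Fin 3) → ℂ) →L[ℂ] H :=
    ∑ j, ∑ k, s j k • ((ContinuousLinearMap.proj (R := ℂ) (φ := fun _ : Fin 3 ⊕ Fin 3 => ℂ)
      (Sum.inl k)).smulRight (T (e j)) -
      (ContinuousLinearMap.proj (R := ℂ) (φ := fun _ : Fin 3 ⊕ Fin 3 => ℂ)
      (Sum.inr k)).smulRight (e j))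
  let W : H →L[ℂ] ((Fin 3 ⊕ Fin 3) → ℂ) :=
    ContinuousLinearMap.pi (Sum.elim (fun k => innerSL ℂ (e k)) (fun k => innerSL ℂ (T (e k))))
  have h1 : skb T (∑ j, ∑ k, s j k • po (e j) (e k)) = U.comp W := by
    rw [skb_sum]
    ext z
    simp [U, W]
  have h2 : W.comp U = big (asm (Matrix.of s) (Matrix.of fun j k => inner ℂ (e j) (e k))
        (Matrix.of fun j k => inner ℂ (e j) (T (e k))) (Matrix.of fun j k => inner ℂ (T (e j)) (e k))
        (Matrix.of fun j k => inner ℂ (T (e j)) (T (e k)))) := by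
    apply ContinuousLinearMap.ext
    intro c
    funext i
    rcases i with i | i
    · simp [U, W, big, asm, Matrix.fromBlocks_mulVec, Matrix.mulVec, dotProduct, Matrix.mul_apply,
        inner_sum, inner_sub_right, inner_smul_right, Fin.sum_univ_three]
      ring
    · simp [U, W, big, asm, Matrix.fromBlocks_mulVec, Matrix.mulVec, dotProduct, Matrix.mul_apply,
        inner_sum, inner_sub_right, inner_smul_right, Fin.sum_univ_three]
      ring
  rw [h1, sr_swap, h2]

lemma po_smul_left (c : ℂ) (x y : H) : po (c • x) y = c • po x y := by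
  ext z
  show inner ℂ y z • (c • x) = c • (inner ℂ y z • x)
  rw [smul_comm]

lemma po_smul_right (c : ℂ) (x y : H) : po x (c • y) = conj c • po x y := by
  ext z
  show inner ℂ (c • y) z • x = conj c • (inner ℂ y z • x)
  rw [inner_smul_left, mul_smul]

lemma tendsto_matrix {M : ℕ → Matrix (Fin 3) (Fin 3) ℂ} {M0 : Matrix (Fin 3) (Fin 3) ℂ}
    (h : ∀ j k, Filter.Tendsto (fun n => M n j k) Filter.atTop (nhds (M0 j k))) :
    Filter.Tendsto M Filter.atTop (nhds M0) :=
  tendsto_pi_nhds.2 fun j => tendsto_pi_nhds.2 fun k => h j k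

/-- continuity of the spectral radius in the Gram matrices -/
lemma sr_big_continuous (s : Matrix (Fin 3) (Fin 3) ℂ) :
    Continuous fun p : (Matrix (Fin 3) (Fin 3) ℂ × Matrix (Fin 3) (Fin 3) ℂ) ×
      (Matrix (Fin 3) (Fin 3) ℂ × Matrix (Fin 3) (Fin 3) ℂ) =>
      sr (big (asm s p.1.1 p.1.2 p.2.1 p.2.2)) :=
  sr_continuous.comp (big_continuous.comp (asm_continuous s))

/-- limits of the Gram matrices -/
lemma gram_limits (T : H →L[ℂ] H) (e : ℕ → Fin 3 → H) (μ : Fin 3 → ℂ)
    (hG : ∀ j k, Filter.Tendsto (fun n => inner ℂ (e n j) (e n k)) Filter.atTop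
      (nhds (if j = k then 1 else 0)))
    (he : ∀ n j, ‖e n j‖ = 1)
    (hμ : ∀ j, Filter.Tendsto (fun n => T (e n j) - μ j • e n j) Filter.atTop (nhds 0)) :
    (∀ j k, Filter.Tendsto (fun n => inner ℂ (e n j) (T (e n k))) Filter.atTop
      (nhds (if j = k then μ k else 0))) ∧
    (∀ j k, Filter.Tendsto (fun n => inner ℂ (T (e n j)) (e n k)) Filter.atTop
      (nhds (if j = k then conj (μ j) else 0))) ∧
    (∀ j k, Filter.Tendsto (fun n => inner ℂ (T (e n j)) (T (e n k))) Filter.atTop
      (nhds (if j = k then conj (μ j) * μ k else 0))) := by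
  have hr : ∀ j, Filter.Tendsto (fun n => ‖T (e n j) - μ j • e n j‖) Filter.atTop (nhds 0) :=
    fun j => by simpa using (hμ j).norm
  have hz : ∀ j k, Filter.Tendsto (fun n => inner ℂ (e n j) (T (e n k) - μ k • e n k))
      Filter.atTop (nhds 0) := by
    intro j k
    apply squeeze_zero_norm _ (hr k)
    intro n
    refine (norm_inner_le_norm _ _).trans ?_
    rw [he, one_mul]
  have hz' : ∀ j k, Filter.Tendsto (fun n => inner ℂ (T (e n j) - μ j • e n j) (e n k))
      Filter.atTop (nhds 0) := by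
    intro j k
    apply squeeze_zero_norm _ (hr j)
    intro n
    refine (norm_inner_le_norm _ _).trans ?_
    rw [he, mul_one]
  have hzz : ∀ j k, Filter.Tendsto (fun n => inner ℂ (T (e n j) - μ j • e n j)
      (T (e n k) - μ k • e n k)) Filter.atTop (nhds 0) := by
    intro j k
    have h1 := (hr j).mul (hr k)
    rw [mul_zero] at h1
    apply squeeze_zero_norm _ h1
    intro n
    exact norm_inner_le_norm _ _
  refine ⟨?_, ?_, ?_⟩
  · intro j k
    have h1 := ((hG j k).const_mul (μ k)).add (hz j k)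
    have h2 : (fun n => μ k * inner ℂ (e n j) (e n k) + inner ℂ (e n j) (T (e n k) - μ k • e n k)) =
        fun n => inner ℂ (e n j) (T (e n k)) := by
      funext n
      rw [inner_sub_right, inner_smul_right]; ring
    rw [h2] at h1
    have h3 : μ k * (if j = k then (1 : ℂ) else 0) + 0 = if j = k then μ k else 0 := by
      split_ifs <;> simp
    rwa [h3] at h1
  · intro j k
    have h1 := ((hG j k).const_mul (conj (μ j))).add (hz' j k)
    have h2 : (fun n => conj (μ j) * inner ℂ (e n j) (e n k) +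
        inner ℂ (T (e n j) - μ j • e n j) (e n k)) =
        fun n => inner ℂ (T (e n j)) (e n k) := by
      funext n
      rw [inner_sub_left, inner_smul_left]; ring
    rw [h2] at h1
    have h3 : conj (μ j) * (if j = k then (1 : ℂ) else 0) + 0 =
        if j = k then conj (μ j) else 0 := by
      split_ifs <;> simp
    rwa [h3] at h1
  · intro j k
    have h1 := ((((hG j k).const_mul (conj (μ j) * μ k)).add ((hz j k).const_mul (conj (μ j)))).add
      ((hz' j k).const_mul (μ k))).add (hzz j k)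
    have h2 : (fun n => conj (μ j) * μ k * inner ℂ (e n j) (e n k) +
        conj (μ j) * inner ℂ (e n j) (T (e n k) - μ k • e n k) +
        μ k * inner ℂ (T (e n j) - μ j • e n j) (e n k) +
        inner ℂ (T (e n j) - μ j • e n j) (T (e n k) - μ k • e n k)) =
        fun n => inner ℂ (T (e n j)) (T (e n k)) := by
      funext n
      simp only [inner_sub_left, inner_sub_right, inner_smul_left, inner_smul_right]; ring
    rw [h2] at h1
    have h3 : conj (μ j) * μ k * (if j = k then (1 : ℂ) else 0) + conj (μ j) * 0 + μ k * 0 + 0 =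
        if j = k then conj (μ j) * μ k else 0 := by
      split_ifs <;> simp
    rwa [h3] at h1

/-- the diagonal model -/
lemma model (μ : Fin 3 → ℂ) (s : Fin 3 → Fin 3 → ℂ) :
    ∃ (E : Fin 3 → EuclideanSpace ℂ (Fin 3))
      (D : EuclideanSpace ℂ (Fin 3) →L[ℂ] EuclideanSpace ℂ (Fin 3)),
      (∀ j k, inner ℂ (E j) (E k) = if j = k then (1 : ℂ) else 0) ∧
      (∀ k, D (E k) = μ k • E k) ∧
      m3 (fun j k => s j k * (μ j - conj (μ k))) =
        skb D (∑ j, ∑ k, s j k • po (E j) (E k)) := by
  let E : Fin 3 → EuclideanSpace ℂ (Fin 3) := fun j => EuclideanSpace.single j 1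
  let D : EuclideanSpace ℂ (Fin 3) →L[ℂ] EuclideanSpace ℂ (Fin 3) :=
    ∑ j, μ j • po (E j) (E j)
  have hE : ∀ j k, inner ℂ (E j) (E k) = if j = k then (1 : ℂ) else 0 := by
    intro j k
    simp only [E, EuclideanSpace.inner_single_left]
    simp [eq_comm]
  have hD : ∀ k, D (E k) = μ k • E k := by
    intro k
    simp [D, hE]
  refine ⟨E, D, hE, hD, ?_⟩
  rw [skb_sum]
  unfold m3
  refine Finset.sum_congr rfl fun j _ => Finset.sum_congr rfl fun k _ => ?_
  rw [hD, hD, po_smul_left, po_smul_right]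
  show (s j k * (μ j - conj (μ k))) • po (E j) (E k) = _
  module

lemma tendsto4 {A : Type*} [TopologicalSpace A] (F : A → A → A → A → ℝ)
    (hF : Continuous fun p : (A × A) × (A × A) => F p.1.1 p.1.2 p.2.1 p.2.2)
    {G1 G2 G3 G4 : ℕ → A} {L1 L2 L3 L4 : A} (h1 : Filter.Tendsto G1 Filter.atTop (nhds L1))
    (h2 : Filter.Tendsto G2 Filter.atTop (nhds L2)) (h3 : Filter.Tendsto G3 Filter.atTop (nhds L3))
    (h4 : Filter.Tendsto G4 Filter.atTop (nhds L4)) :
    Filter.Tendsto (fun n => F (G1 n) (G2 n) (G3 n) (G4 n)) Filter.atTop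
      (nhds (F L1 L2 L3 L4)) :=
  (hF.tendsto ((L1, L2), (L3, L4))).comp ((h1.prodMk_nhds h2).prodMk_nhds (h3.prodMk_nhds h4))

lemma sr_big_tendsto (s : Matrix (Fin 3) (Fin 3) ℂ) {G1 G2 G3 G4 : ℕ → Matrix (Fin 3) (Fin 3) ℂ}
    {L1 L2 L3 L4 : Matrix (Fin 3) (Fin 3) ℂ} (h1 : Filter.Tendsto G1 Filter.atTop (nhds L1))
    (h2 : Filter.Tendsto G2 Filter.atTop (nhds L2)) (h3 : Filter.Tendsto G3 Filter.atTop (nhds L3))
    (h4 : Filter.Tendsto G4 Filter.atTop (nhds L4)) :
    Filter.Tendsto (fun n => sr (big (asm s (G1 n) (G2 n) (G3 n) (G4 n)))) Filter.atTop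
      (nhds (sr (big (asm s L1 L2 L3 L4)))) :=
  tendsto4 (fun G1 G2 G3 G4 => sr (big (asm s G1 G2 G3 G4))) (sr_big_continuous s) h1 h2 h3 h4

/-- limits of the spectral radii -/
lemma big_limit (T : H →L[ℂ] H) (e : ℕ → Fin 3 → H) (μ : Fin 3 → ℂ) (s : Fin 3 → Fin 3 → ℂ)
    (hG : ∀ j k, Filter.Tendsto (fun n => inner ℂ (e n j) (e n k)) Filter.atTop
      (nhds (if j = k then 1 else 0)))
    (he : ∀ n j, ‖e n j‖ = 1)
    (hμ : ∀ j, Filter.Tendsto (fun n => T (e n j) - μ j • e n j) Filter.atTop (nhds 0)) :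
    Filter.Tendsto (fun n => sr (skb T (∑ j, ∑ k, s j k • po (e n j) (e n k)))) Filter.atTop
      (nhds (sr (m3 fun j k => s j k * (μ j - conj (μ k))))) := by
  obtain ⟨hG2, hG3, hG4⟩ := gram_limits T e μ hG he hμ
  obtain ⟨E, D, hE, hD, hmodel⟩ := model μ s
  have hfun : (fun n => sr (skb T (∑ j, ∑ k, s j k • po (e n j) (e n k)))) = fun n =>
      sr (big (asm (Matrix.of s) (Matrix.of fun j k => inner ℂ (e n j) (e n k))
        (Matrix.of fun j k => inner ℂ (e n j) (T (e n k)))
        (Matrix.of fun j k => inner ℂ (T (e n j)) (e n k))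
        (Matrix.of fun j k => inner ℂ (T (e n j)) (T (e n k))))) :=
    funext fun n => sr_skb_gram T (e n) s
  rw [hmodel, sr_skb_gram, hfun]
  apply sr_big_tendsto
  · refine tendsto_matrix fun j k => ?_
    simpa [hE] using hG j k
  · refine tendsto_matrix fun j k => ?_
    have e1 : inner ℂ (E j) (D (E k)) = if j = k then μ k else 0 := by
      rw [hD, inner_smul_right, hE]; split_ifs <;> simp
    simpa [e1] using hG2 j k
  · refine tendsto_matrix fun j k => ?_
    have e1 : inner ℂ (D (E j)) (E k) = if j = k then conj (μ j) else 0 := by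
      rw [hD, inner_smul_left, hE]; split_ifs <;> simp
    simpa [e1] using hG3 j k
  · refine tendsto_matrix fun j k => ?_
    have e1 : inner ℂ (D (E j)) (D (E k)) = if j = k then conj (μ j) * μ k else 0 := by
      rw [hD, hD, inner_smul_left, inner_smul_right, hE]; split_ifs <;> simp
    simpa [e1] using hG4 j k

end E11B

section e2

variable {H : Type*} [NormedAddCommGroup H] [InnerProductSpace ℂ H] [CompleteSpace H]

theorem limit_test {T : H →L[ℂ] H} (hT : T * adjoint T = adjoint T * T) {l : Fin 3 → ℂ}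
    (hinj : Function.Injective l) (hl : ∀ j, l j ∈ spectrum ℂ T)
    (h : ∀ S, sr (skb (adjoint T) S) = sr (skb T S)) (s : Fin 3 → Fin 3 → ℂ) :
    sr (m3 fun j k => s j k * (conj (l j) - l k)) =
      sr (m3 fun j k => s j k * (l j - conj (l k))) := by
  have hpos : ∀ n : ℕ, (0 : ℝ) < 1 / ((n : ℝ) + 1) := fun n => by positivity
  choose e he h1 h2 using fun (n : ℕ) (j : Fin 3) => approx_eigen hT (hl j) (hpos n)
  have hlim0 : Filter.Tendsto (fun n : ℕ => 1 / ((n : ℝ) + 1)) Filter.atTop (nhds 0) :=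
    tendsto_one_div_add_atTop_nhds_zero_nat
  have t1 : ∀ j, Filter.Tendsto (fun n => T (e n j) - l j • e n j) Filter.atTop (nhds 0) := by
    intro j
    exact squeeze_zero_norm (fun n => (h1 n j).le) hlim0
  have t2 : ∀ j, Filter.Tendsto (fun n => adjoint T (e n j) - conj (l j) • e n j) Filter.atTop
      (nhds 0) := by
    intro j
    exact squeeze_zero_norm (fun n => (h2 n j).le) hlim0
  have hG : ∀ j k, Filter.Tendsto (fun n => inner ℂ (e n j) (e n k)) Filter.atTop
      (nhds (if j = k then 1 else 0)) := by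
    intro j k
    by_cases hjk : j = k
    · subst hjk
      simp only [if_true]
      have : (fun n => inner ℂ (e n j) (e n j)) = fun _ => (1 : ℂ) := by
        funext n
        rw [inner_self_eq_norm_sq_to_K, he]; simp
      rw [this]
      exact tendsto_const_nhds
    · simp only [hjk, if_false]
      have hne : l k - l j ≠ 0 := sub_ne_zero.2 fun h0 => hjk (hinj h0).symm
      have h3 : ∀ n, ‖inner ℂ (e n j) (e n k)‖ ≤ ‖l k - l j‖⁻¹ * (2 * (1 / ((n : ℝ) + 1))) := by
        intro n
        have e1 : (l k - l j) * inner ℂ (e n j) (e n k) =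
            inner ℂ (adjoint T (e n j) - conj (l j) • e n j) (e n k) -
            inner ℂ (e n j) (T (e n k) - l k • e n k) := by
          simp only [inner_sub_left, inner_sub_right, inner_smul_left, inner_smul_right,
            ContinuousLinearMap.adjoint_inner_left, Complex.conj_conj]
          ring
        have e2 : ‖(l k - l j) * inner ℂ (e n j) (e n k)‖ ≤ 2 * (1 / ((n : ℝ) + 1)) := by
          rw [e1]
          refine (norm_sub_le _ _).trans ?_
          have a1 : ‖inner ℂ (adjoint T (e n j) - conj (l j) • e n j) (e n k)‖ ≤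
              1 / ((n : ℝ) + 1) := by
            refine (norm_inner_le_norm _ _).trans ?_
            rw [he, mul_one]; exact (h2 n j).le
          have a2 : ‖inner ℂ (e n j) (T (e n k) - l k • e n k)‖ ≤ 1 / ((n : ℝ) + 1) := by
            refine (norm_inner_le_norm _ _).trans ?_
            rw [he, one_mul]; exact (h1 n k).le
          linarith
        rw [norm_mul] at e2
        rw [← div_eq_inv_mul, le_div_iff₀ (norm_pos_iff.2 hne)]
        linarith [mul_comm ‖l k - l j‖ ‖inner ℂ (e n j) (e n k)‖]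
      apply squeeze_zero_norm h3
      have := (hlim0.const_mul 2).const_mul (‖l k - l j‖⁻¹)
      simpa using this
  have L1 := big_limit T e l s hG he t1
  have L2 := big_limit (adjoint T) e (fun j => conj (l j)) s hG he t2
  simp only [Complex.conj_conj] at L2
  simp only [h] at L2
  exact tendsto_nhds_unique L2 L1

end e2

end PR
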